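import Mathlib

/-!
Combinatorial part of the tube occupancy construction (after `Pool/Agent/K9h79/Tube/Comb.lean`, by
helper79, there for thin tubes only): a pattern `σ` choosing one cell in each column of an
`N × ... × N` grid such that every tube, thin or wide, meets few chosen cells.
-/

namespace Pool.Agent.K9h65.TU

open Finset

/-- columns of the grid -/
abbrev Col (m N : ℕ) : Type := Fin m → Fin N

/-- cells of the grid -/
abbrev Grid (m N : ℕ) : Type := (Fin m → Fin N) × Fin N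

/-- `c` is within sup-distance `4 ρ` of the segment from `a` to `b`. -/
def Near (m N ρ : ℕ) (a b c : (Fin m → Fin N) × Fin N) : Prop :=
  ∃ l : ℝ, 0 ≤ l ∧ l ≤ 1 ∧
    (∀ j, |((c.1 j : ℕ) : ℝ) - ((1 - l) * ((a.1 j : ℕ) : ℝ) + l * ((b.1 j : ℕ) : ℝ))| ≤ 4 * ρ) ∧
    |((c.2 : ℕ) : ℝ) - ((1 - l) * ((a.2 : ℕ) : ℝ) + l * ((b.2 : ℕ) : ℝ))| ≤ 4 * ρ

open Classical in
lemma card_fin_near (N ρ : ℕ) (hρ : 1 ≤ ρ) (q : ℝ) :
    (univ.filter fun y : Fin N => |((y : ℕ) : ℝ) - q| ≤ 5 * ρ).card ≤ 11 * ρ := by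
  have h1 : (univ.filter fun y : Fin N => |((y : ℕ) : ℝ) - q| ≤ 5 * ρ).card
      ≤ (Finset.Icc ⌈q - 5 * ρ⌉ ⌊q + 5 * ρ⌋).card := by
    apply Finset.card_le_card_of_injOn (fun y : Fin N => ((y : ℕ) : ℤ))
    · intro y hy
      have hy' : |((y : ℕ) : ℝ) - q| ≤ 5 * ρ := by simpa using hy
      rw [abs_le] at hy'
      simp only [Finset.coe_Icc, Set.mem_Icc]
      constructor
      · rw [Int.ceil_le]
        push_cast
        linarith [hy'.1]
      · rw [Int.le_floor]
        push_cast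
        linarith [hy'.2]
    · intro x _ y _ hxy
      apply Fin.ext
      have hxy' : ((x : ℕ) : ℤ) = ((y : ℕ) : ℤ) := hxy
      exact_mod_cast hxy'
  refine h1.trans ?_
  rw [Int.card_Icc]
  have h2 : (⌊q + 5 * ρ⌋ : ℝ) ≤ q + 5 * ρ := Int.floor_le _
  have h3 : q - 5 * ρ ≤ (⌈q - 5 * ρ⌉ : ℝ) := Int.le_ceil _
  have h4 : ⌊q + 5 * ρ⌋ - ⌈q - 5 * ρ⌉ ≤ 10 * ρ := by
    have : ((⌊q + 5 * ρ⌋ - ⌈q - 5 * ρ⌉ : ℤ) : ℝ) ≤ ((10 * ρ : ℤ) : ℝ) := by
      push_cast
      linarith
    exact_mod_cast this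
  omega

open Classical in
lemma card_near_le (m N ρ : ℕ) (hρ : 1 ≤ ρ) (a b : (Fin m → Fin N) × Fin N) :
    (univ.filter fun c => Near m N ρ a b c).card ≤ (N / ρ + 2) * (11 * ρ) ^ (m + 1) := by
  have hN : 0 < N := lt_of_le_of_lt (Nat.zero_le _) a.2.isLt
  have hN' : (0 : ℝ) < N := by exact_mod_cast hN
  have hρ' : (0 : ℝ) < ρ := by exact_mod_cast hρ
  set Q : ℕ := N / ρ + 1 with hQdef
  have hQ : (0 : ℝ) < Q := by rw [hQdef]; positivity
  have hQN : (N : ℝ) ≤ ρ * Q := by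
    have := (Nat.lt_mul_div_succ N hρ).le
    exact_mod_cast this
  set qv : ℕ → ℝ → ℝ → ℝ := fun k u v => (1 - (k : ℝ) / Q) * u + (k : ℝ) / Q * v with hqv
  set box : ℕ → Finset ((Fin m → Fin N) × Fin N) := fun k =>
    (Fintype.piFinset fun j => univ.filter fun y : Fin N =>
      |((y : ℕ) : ℝ) - qv k ((a.1 j : ℕ) : ℝ) ((b.1 j : ℕ) : ℝ)| ≤ 5 * ρ) ×ˢ
    (univ.filter fun y : Fin N => |((y : ℕ) : ℝ) - qv k ((a.2 : ℕ) : ℝ) ((b.2 : ℕ) : ℝ)| ≤ 5 * ρ)
    with hbox
  have hboxcard : ∀ k, (box k).card ≤ (11 * ρ) ^ (m + 1) := by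
    intro k
    rw [hbox]
    simp only [Finset.card_product, Fintype.card_piFinset]
    calc (∏ j : Fin m, (univ.filter fun y : Fin N =>
            |((y : ℕ) : ℝ) - qv k ((a.1 j : ℕ) : ℝ) ((b.1 j : ℕ) : ℝ)| ≤ 5 * ρ).card) *
          (univ.filter fun y : Fin N =>
            |((y : ℕ) : ℝ) - qv k ((a.2 : ℕ) : ℝ) ((b.2 : ℕ) : ℝ)| ≤ 5 * ρ).card
        ≤ (∏ _j : Fin m, (11 * ρ)) * (11 * ρ) := by
          apply Nat.mul_le_mul
          · exact Finset.prod_le_prod' fun j _ => card_fin_near N ρ hρ _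
          · exact card_fin_near N ρ hρ _
      _ = (11 * ρ) ^ (m + 1) := by simp [pow_succ]
  have hcover : (univ.filter fun c => Near m N ρ a b c) ⊆ (range (N / ρ + 2)).biUnion box := by
    intro c hc
    obtain ⟨l, hl0, hl1, h1, h2⟩ := (Finset.mem_filter.mp hc).2
    rw [Finset.mem_biUnion]
    refine ⟨⌊l * Q⌋₊, ?_, ?_⟩
    · rw [Finset.mem_range]
      have : ⌊l * (Q : ℝ)⌋₊ ≤ Q := by
        apply Nat.floor_le_of_le
        nlinarith
      omega
    · have hk1 : ((⌊l * (Q : ℝ)⌋₊ : ℕ) : ℝ) ≤ l * Q := Nat.floor_le (by positivity)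
      have hk2 : l * Q < ((⌊l * (Q : ℝ)⌋₊ : ℕ) : ℝ) + 1 := Nat.lt_floor_add_one _
      set k := ⌊l * (Q : ℝ)⌋₊ with hk
      have hkl : |l - (k : ℝ) / Q| ≤ 1 / Q := by
        rw [abs_le]
        constructor
        · have : (k : ℝ) / Q ≤ l := by rw [div_le_iff₀ hQ]; linarith
          have : (0 : ℝ) < 1 / Q := by positivity
          linarith
        · have : l ≤ (k : ℝ) / Q + 1 / Q := by
            rw [← add_div, le_div_iff₀ hQ]; linarith
          linarith
      have key : ∀ x u v : Fin N,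
          |((x : ℕ) : ℝ) - ((1 - l) * ((u : ℕ) : ℝ) + l * ((v : ℕ) : ℝ))| ≤ 4 * ρ →
          |((x : ℕ) : ℝ) - qv k ((u : ℕ) : ℝ) ((v : ℕ) : ℝ)| ≤ 5 * ρ := by
        intro x u v hx
        have hu : ((u : ℕ) : ℝ) ≤ N := by exact_mod_cast u.isLt.le
        have hv : ((v : ℕ) : ℝ) ≤ N := by exact_mod_cast v.isLt.le
        have hu0 : (0 : ℝ) ≤ ((u : ℕ) : ℝ) := Nat.cast_nonneg _
        have hv0 : (0 : ℝ) ≤ ((v : ℕ) : ℝ) := Nat.cast_nonneg _
        have huv : |((v : ℕ) : ℝ) - ((u : ℕ) : ℝ)| ≤ N := by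
          rw [abs_le]; constructor <;> linarith
        have heq : ((x : ℕ) : ℝ) - qv k ((u : ℕ) : ℝ) ((v : ℕ) : ℝ)
            = (((x : ℕ) : ℝ) - ((1 - l) * ((u : ℕ) : ℝ) + l * ((v : ℕ) : ℝ)))
              + (l - (k : ℝ) / Q) * (((v : ℕ) : ℝ) - ((u : ℕ) : ℝ)) := by
          simp only [hqv]; ring
        rw [heq]
        refine (abs_add_le _ _).trans ?_
        rw [abs_mul]
        have : |l - (k : ℝ) / Q| * |((v : ℕ) : ℝ) - ((u : ℕ) : ℝ)| ≤ 1 / Q * N := by
          apply mul_le_mul hkl huv (abs_nonneg _) (by positivity)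
        have h3 : 1 / (Q : ℝ) * N ≤ ρ := by
          rw [one_div, inv_mul_le_iff₀ hQ]
          linarith
        linarith
      rw [hbox]
      simp only [Finset.mem_product, Fintype.mem_piFinset, Finset.mem_filter, Finset.mem_univ,
        true_and]
      exact ⟨fun j => key _ _ _ (h1 j), key _ _ _ h2⟩
  calc (univ.filter fun c => Near m N ρ a b c).card ≤ ((range (N / ρ + 2)).biUnion box).card :=
        Finset.card_le_card hcover
    _ ≤ (range (N / ρ + 2)).card * (11 * ρ) ^ (m + 1) := Finset.card_biUnion_le_card_mul _ _ _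
        (fun k _ => hboxcard k)
    _ = (N / ρ + 2) * (11 * ρ) ^ (m + 1) := by rw [Finset.card_range]

open Classical in
lemma exists_pattern (m N : ℕ) (M : ℕ → ℕ) (β : ℕ → ℝ) (hβ : ∀ ρ, 1 ≤ β ρ) (hN : 0 < N)
    (h : ∀ ρ : ℕ, 1 ≤ ρ → ρ ≤ N → (N : ℝ) ^ (2 * (m + 1) + 1) *
      Real.exp ((β ρ - 1) * (3 * 11 ^ (m + 1) * (ρ : ℝ) ^ m)) < β ρ ^ M ρ) :
    ∃ σ : (Fin m → Fin N) → Fin N, ∀ ρ : ℕ, 1 ≤ ρ → ρ ≤ N → ∀ a b,
      (univ.filter fun x => Near m N ρ a b (x, σ x)).card < M ρ := by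
  by_contra hcon
  push Not at hcon
  have hN' : (0 : ℝ) < N := by exact_mod_cast hN
  -- the weight of a pattern
  set W : ℕ → Grid m N → Grid m N → (Col m N → Fin N) → ℝ := fun ρ a b σ =>
    ∏ x : Col m N, (if Near m N ρ a b (x, σ x) then β ρ else 1) with hW
  have hWeq : ∀ ρ a b σ, W ρ a b σ =
      β ρ ^ (univ.filter fun x => Near m N ρ a b (x, σ x)).card := by
    intro ρ a b σ
    simp only [hW]
    rw [Finset.prod_ite]
    simp
  have hsum : ∀ ρ : ℕ, 1 ≤ ρ → ρ ≤ N → ∀ a b, ∑ σ : Col m N → Fin N, W ρ a b σ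
      ≤ (N : ℝ) ^ (Fintype.card (Col m N)) * Real.exp ((β ρ - 1) * (3 * 11 ^ (m + 1) * (ρ : ℝ) ^ m)) := by
    intro ρ hρ hρN a b
    have e1 : ∑ σ : Col m N → Fin N, W ρ a b σ
        = ∏ x : Col m N, ∑ y : Fin N, (if Near m N ρ a b (x, y) then β ρ else 1) := by
      rw [Finset.prod_univ_sum]
      simp only [Fintype.piFinset_univ, hW]
    rw [e1]
    have e2 : ∀ x : Col m N, ∑ y : Fin N, (if Near m N ρ a b (x, y) then β ρ else 1)
        = N + (β ρ - 1) * ((univ.filter fun y : Fin N => Near m N ρ a b (x, y)).card : ℝ) := by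
      intro x
      have : ∀ y : Fin N, (if Near m N ρ a b (x, y) then β ρ else 1)
          = 1 + (β ρ - 1) * (if Near m N ρ a b (x, y) then (1 : ℝ) else 0) := by
        intro y; split_ifs <;> ring
      simp only [this, Finset.sum_add_distrib, Finset.sum_const, Finset.card_univ,
        Fintype.card_fin, nsmul_eq_mul, mul_one, ← Finset.mul_sum, Finset.sum_boole]
    have e3 : ∀ x : Col m N, ∑ y : Fin N, (if Near m N ρ a b (x, y) then β ρ else 1)
        ≤ N * Real.exp ((β ρ - 1) *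
          (((univ.filter fun y : Fin N => Near m N ρ a b (x, y)).card : ℝ) / N)) := by
      intro x
      rw [e2]
      have := Real.add_one_le_exp ((β ρ - 1) *
        (((univ.filter fun y : Fin N => Near m N ρ a b (x, y)).card : ℝ) / N))
      calc (N : ℝ) + (β ρ - 1) * ((univ.filter fun y : Fin N => Near m N ρ a b (x, y)).card : ℝ)
          = N * ((β ρ - 1) *
            (((univ.filter fun y : Fin N => Near m N ρ a b (x, y)).card : ℝ) / N) + 1) := by
            field_simp; ring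
        _ ≤ _ := mul_le_mul_of_nonneg_left this hN'.le
    calc ∏ x : Col m N, ∑ y : Fin N, (if Near m N ρ a b (x, y) then β ρ else 1)
        ≤ ∏ x : Col m N, (N * Real.exp ((β ρ - 1) *
            (((univ.filter fun y : Fin N => Near m N ρ a b (x, y)).card : ℝ) / N))) := by
          apply Finset.prod_le_prod
          · intro x _
            apply Finset.sum_nonneg
            intro y _
            have := hβ ρ
            split_ifs <;> linarith
          · intro x _; exact e3 x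
      _ = (N : ℝ) ^ (Fintype.card (Col m N)) *
            Real.exp (∑ x : Col m N, (β ρ - 1) *
              (((univ.filter fun y : Fin N => Near m N ρ a b (x, y)).card : ℝ) / N)) := by
          rw [Finset.prod_mul_distrib, Finset.prod_const, Finset.card_univ, Real.exp_sum]
      _ ≤ (N : ℝ) ^ (Fintype.card (Col m N)) * Real.exp ((β ρ - 1) * (3 * 11 ^ (m + 1) * (ρ : ℝ) ^ m)) := by
          apply mul_le_mul_of_nonneg_left _ (by positivity)
          apply Real.exp_le_exp.mpr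
          rw [← Finset.mul_sum]
          refine mul_le_mul_of_nonneg_left ?_ (by linarith [hβ ρ])
          rw [← Finset.sum_div]
          have hc : (∑ x : Col m N,
              ((univ.filter fun y : Fin N => Near m N ρ a b (x, y)).card : ℝ))
              = ((univ.filter fun c : Grid m N => Near m N ρ a b c).card : ℝ) := by
            have : (univ.filter fun c : Grid m N => Near m N ρ a b c).card
                = ∑ x : Col m N, (univ.filter fun y : Fin N => Near m N ρ a b (x, y)).card := by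
              rw [Finset.card_filter, Fintype.sum_prod_type]
              apply Finset.sum_congr rfl
              intro x _
              rw [Finset.card_filter]
            rw [this]
            push_cast
            rfl
          rw [hc, div_le_iff₀ hN']
          have h1 : ((univ.filter fun c : Grid m N => Near m N ρ a b c).card : ℝ)
              ≤ ((N / ρ + 2) * (11 * ρ) ^ (m + 1) : ℕ) := by
            exact_mod_cast card_near_le m N ρ hρ a b
          refine h1.trans ?_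
          have h2 : (N / ρ + 2) * (11 * ρ) ^ (m + 1) ≤ 3 * 11 ^ (m + 1) * ρ ^ m * N := by
            have h3 : (N / ρ + 2) * ρ ≤ 3 * N := by
              have h4 : N / ρ * ρ ≤ N := Nat.div_mul_le_self N ρ
              nlinarith
            calc (N / ρ + 2) * (11 * ρ) ^ (m + 1)
                = ((N / ρ + 2) * ρ) * (11 ^ (m + 1) * ρ ^ m) := by rw [mul_pow]; ring
              _ ≤ (3 * N) * (11 ^ (m + 1) * ρ ^ m) := Nat.mul_le_mul_right _ h3
              _ = 3 * 11 ^ (m + 1) * ρ ^ m * N := by ring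
          have h5 : (((N / ρ + 2) * (11 * ρ) ^ (m + 1) : ℕ) : ℝ)
              ≤ ((3 * 11 ^ (m + 1) * ρ ^ m * N : ℕ) : ℝ) := by exact_mod_cast h2
          refine h5.trans (le_of_eq ?_)
          push_cast
          ring
  have hnn : ∀ ρ a b σ, 0 ≤ W ρ a b σ := by
    intro ρ a b σ
    rw [hWeq]
    exact pow_nonneg (by linarith [hβ ρ]) _
  have hb0 : ∀ ρ, (0 : ℝ) < β ρ ^ M ρ := fun ρ => pow_pos (by linarith [hβ ρ]) _
  have hlow : (N : ℝ) ^ (Fintype.card (Col m N)) ≤ ∑ ρ ∈ Finset.Icc 1 N,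
      ∑ p : Grid m N × Grid m N, ∑ σ : Col m N → Fin N, W ρ p.1 p.2 σ / β ρ ^ M ρ := by
    have hcomm : ∑ ρ ∈ Finset.Icc 1 N,
        ∑ p : Grid m N × Grid m N, ∑ σ : Col m N → Fin N, W ρ p.1 p.2 σ / β ρ ^ M ρ
        = ∑ σ : Col m N → Fin N, ∑ ρ ∈ Finset.Icc 1 N, ∑ p : Grid m N × Grid m N,
          W ρ p.1 p.2 σ / β ρ ^ M ρ := by
      rw [Finset.sum_comm' (s := Finset.univ) (t := fun _ => Finset.Icc 1 N)
        (t' := Finset.Icc 1 N) (s' := fun _ => Finset.univ) (by simp)]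
      exact Finset.sum_congr rfl fun ρ _ => Finset.sum_comm
    rw [hcomm]
    have : ∀ σ : Col m N → Fin N, (1 : ℝ) ≤ ∑ ρ ∈ Finset.Icc 1 N,
        ∑ p : Grid m N × Grid m N, W ρ p.1 p.2 σ / β ρ ^ M ρ := by
      intro σ
      obtain ⟨ρ, hρ, hρN, a, b, hab⟩ := hcon σ
      have hn1 : ∀ ρ', 0 ≤ ∑ p : Grid m N × Grid m N, W ρ' p.1 p.2 σ / β ρ' ^ M ρ' := fun ρ' =>
        Finset.sum_nonneg fun p _ => div_nonneg (hnn _ _ _ _) (hb0 _).le
      refine le_trans ?_ (Finset.single_le_sum (f := fun ρ' => ∑ p : Grid m N × Grid m N,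
        W ρ' p.1 p.2 σ / β ρ' ^ M ρ') (fun ρ' _ => hn1 ρ') (Finset.mem_Icc.2 ⟨hρ, hρN⟩))
      refine le_trans ?_ (Finset.single_le_sum (f := fun p : Grid m N × Grid m N =>
        W ρ p.1 p.2 σ / β ρ ^ M ρ) (fun p _ => div_nonneg (hnn _ _ _ _) (hb0 _).le)
        (Finset.mem_univ (a, b)))
      simp only
      rw [hWeq, le_div_iff₀ (hb0 ρ), one_mul]
      exact pow_le_pow_right₀ (hβ ρ) hab
    calc (N : ℝ) ^ (Fintype.card (Col m N)) = ∑ _σ : Col m N → Fin N, (1 : ℝ) := by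
          rw [Finset.sum_const, Finset.card_univ, nsmul_eq_mul]
          have hc : Fintype.card (Col m N → Fin N) = N ^ Fintype.card (Col m N) := by
            rw [Fintype.card_fun (α := Col m N) (β := Fin N), Fintype.card_fin]
          rw [hc]
          push_cast
          ring
      _ ≤ _ := Finset.sum_le_sum fun σ _ => this σ
  have hpos : (0 : ℝ) < (N : ℝ) ^ (Fintype.card (Col m N)) := by positivity
  have hup : ∀ ρ ∈ Finset.Icc 1 N, ∑ p : Grid m N × Grid m N, ∑ σ : Col m N → Fin N,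
      W ρ p.1 p.2 σ / β ρ ^ M ρ < (N : ℝ) ^ (Fintype.card (Col m N)) / N := by
    intro ρ hρ
    obtain ⟨hρ1, hρN⟩ := Finset.mem_Icc.1 hρ
    have h2M : (0 : ℝ) < β ρ ^ M ρ := hb0 ρ
    calc ∑ p : Grid m N × Grid m N, ∑ σ : Col m N → Fin N, W ρ p.1 p.2 σ / β ρ ^ M ρ
        ≤ ∑ _p : Grid m N × Grid m N, ((N : ℝ) ^ (Fintype.card (Col m N)) *
            Real.exp ((β ρ - 1) * (3 * 11 ^ (m + 1) * (ρ : ℝ) ^ m))) / β ρ ^ M ρ := by
          refine Finset.sum_le_sum fun p _ => ?_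
          rw [← Finset.sum_div]
          exact div_le_div_of_nonneg_right (hsum ρ hρ1 hρN p.1 p.2) h2M.le
      _ = (N : ℝ) ^ (2 * (m + 1)) * ((N : ℝ) ^ (Fintype.card (Col m N)) *
            Real.exp ((β ρ - 1) * (3 * 11 ^ (m + 1) * (ρ : ℝ) ^ m))) / β ρ ^ M ρ := by
          rw [Finset.sum_const, Finset.card_univ, nsmul_eq_mul, ← mul_div_assoc]
          congr 2
          simp only [Fintype.card_prod, Fintype.card_fin, Fintype.card_fun]
          push_cast
          ring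
      _ < (N : ℝ) ^ (Fintype.card (Col m N)) / N := by
          rw [div_lt_div_iff₀ h2M hN']
          have h3 := h ρ hρ1 hρN
          calc (N : ℝ) ^ (2 * (m + 1)) * ((N : ℝ) ^ (Fintype.card (Col m N)) *
                Real.exp ((β ρ - 1) * (3 * 11 ^ (m + 1) * (ρ : ℝ) ^ m))) * N
              = (N : ℝ) ^ (Fintype.card (Col m N)) * ((N : ℝ) ^ (2 * (m + 1) + 1) *
                Real.exp ((β ρ - 1) * (3 * 11 ^ (m + 1) * (ρ : ℝ) ^ m))) := by ring
            _ < _ := mul_lt_mul_of_pos_left h3 hpos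
  have hne : (Finset.Icc 1 N).Nonempty := ⟨1, Finset.mem_Icc.2 ⟨le_refl _, hN⟩⟩
  have hlt := hlow.trans_lt (Finset.sum_lt_sum_of_nonempty hne hup)
  rw [Finset.sum_const, Nat.card_Icc, nsmul_eq_mul] at hlt
  have : ((N + 1 - 1 : ℕ) : ℝ) * ((N : ℝ) ^ (Fintype.card (Col m N)) / N)
      = (N : ℝ) ^ (Fintype.card (Col m N)) := by
    rw [Nat.add_sub_cancel]
    field_simp
  rw [this] at hlt
  exact lt_irrefl _ hlt

open Classical in
lemma card_le_of_line {m N M ρ : ℕ} {σ : (Fin m → Fin N) → Fin N}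
    (hσ : ∀ a b, (univ.filter fun x => Near m N ρ a b (x, σ x)).card < M)
    (X : Finset (Fin m → Fin N)) (P V : Fin m → ℝ) (P' V' : ℝ) (t : (Fin m → Fin N) → ℝ)
    (h : ∀ x ∈ X, (∀ j, |((x j : ℕ) : ℝ) - (P j + t x * V j)| ≤ 2 * ρ) ∧
      |((σ x : ℕ) : ℝ) - (P' + t x * V')| ≤ 2 * ρ) : X.card ≤ M := by
  rcases X.eq_empty_or_nonempty with rfl | hne
  · simp
  obtain ⟨u, hu, hu'⟩ := X.exists_min_image t hne
  obtain ⟨v, hv, hv'⟩ := X.exists_max_image t hne
  refine le_of_lt (lt_of_le_of_lt (Finset.card_le_card ?_) (hσ (u, σ u) (v, σ v)))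
  intro x hx
  rw [Finset.mem_filter]
  refine ⟨Finset.mem_univ _, ?_⟩
  -- the parameter
  obtain ⟨l, hl0, hl1, hl⟩ : ∃ l : ℝ, 0 ≤ l ∧ l ≤ 1 ∧ t x = (1 - l) * t u + l * t v := by
    rcases eq_or_lt_of_le ((hu' x hx).trans (hv' x hx)) with heq | hlt
    · refine ⟨0, le_refl _, zero_le_one, ?_⟩
      have h1 := hu' x hx
      have h2 := hv' x hx
      rw [← heq] at h2
      linarith
    · have hpos : 0 < t v - t u := by linarith
      refine ⟨(t x - t u) / (t v - t u), ?_, ?_, ?_⟩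
      · apply div_nonneg _ hpos.le
        linarith [hu' x hx]
      · rw [div_le_one hpos]
        linarith [hv' x hx]
      · field_simp
        ring
  have key : ∀ (y y1 y2 p w : ℝ), |y - (p + t x * w)| ≤ 2 * ρ →
      |y1 - (p + t u * w)| ≤ 2 * ρ → |y2 - (p + t v * w)| ≤ 2 * ρ →
      |y - ((1 - l) * y1 + l * y2)| ≤ 4 * ρ := by
    intro y y1 y2 p w h0 h1 h2
    rw [hl] at h0
    rw [abs_le] at h0 h1 h2 ⊢
    obtain ⟨a0, b0⟩ := h0
    obtain ⟨a1, b1⟩ := h1
    obtain ⟨a2, b2⟩ := h2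
    have hl1' : 0 ≤ 1 - l := by linarith
    constructor
    · nlinarith [mul_le_mul_of_nonneg_left b1 hl1', mul_le_mul_of_nonneg_left b2 hl0]
    · nlinarith [mul_le_mul_of_nonneg_left a1 hl1', mul_le_mul_of_nonneg_left a2 hl0]
  exact ⟨l, hl0, hl1, fun j => key _ _ _ (P j) (V j) ((h x hx).1 j) ((h u hu).1 j) ((h v hv).1 j),
    key _ _ _ P' V' (h x hx).2 (h u hu).2 (h v hv).2⟩

end Pool.Agent.K9h65.TU
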