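import Mathlib
import Pool.Agent.K9h65.TU.Comb

/-!
Geometric part (after `Pool/Agent/K9h79/Tube/Geom.lean`, by helper79; here the grid sizes
`2 ^ (ex n)` are arbitrary, and wide tubes are counted too): the compact set `K` and the counting of
cells hit by a set.
-/

namespace Pool.Agent.K9h65.TU

open Finset

/-- a sequence of positive integers `j n`: the `n`-th grid has `2 ^ (2 * 4 ^ (j n))` cells in each
direction -/
class Sq where
  /-- the sequence -/
  j : ℕ → ℕ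
  pos : ∀ n, 1 ≤ j n

variable [Sq]

/-- the sequence `j` -/
def jj (n : ℕ) : ℕ := Sq.j n

lemma jj_pos (n : ℕ) : 1 ≤ jj n := Sq.pos n

/-- the exponents -/
def ex (n : ℕ) : ℕ := 2 * 4 ^ (jj n)

lemma ex_pos (n : ℕ) : 1 ≤ ex n := by
  have : 0 < 4 ^ (jj n) := by positivity
  unfold ex
  omega

/-- number of subdivisions after `n` steps -/
def R : ℕ → ℕ
  | 0 => 1
  | n + 1 => R n * 2 ^ (ex n)

lemma R_pos (n : ℕ) : 0 < R n := by
  induction n with
  | zero => simp [R]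
  | succ n ih => simp only [R]; positivity

lemma R_pos' (n : ℕ) : (0 : ℝ) < R n := by exact_mod_cast R_pos n

lemma R_succ (n : ℕ) : R (n + 1) = R n * 2 ^ (ex n) := rfl

lemma R_mono {n k : ℕ} (h : n ≤ k) : R n ≤ R k := by
  induction k, h using Nat.le_induction with
  | base => exact le_refl _
  | succ k _ ih =>
    rw [R_succ]
    exact ih.trans (Nat.le_mul_of_pos_right _ (by positivity))

lemma pow_le_R (n : ℕ) : 2 ^ n ≤ R n := by
  induction n with
  | zero => simp [R]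
  | succ n ih =>
    rw [R_succ, pow_succ]
    exact Nat.mul_le_mul ih (by
      calc 2 = 2 ^ 1 := rfl
        _ ≤ 2 ^ (ex n) := Nat.pow_le_pow_right (by norm_num) (ex_pos n))

/-- the constant in the bound for the number of cells -/
def B (m : ℕ) : ℕ := (2 * m + 3) + 6 * 11 ^ (m + 1)

omit [Sq] in
lemma B_pos (m : ℕ) : 0 < B m := by unfold B; positivity

/-- the bound for the number of the chosen cells near a line: for small `ρ` -/
def thrS (m j ρ : ℕ) : ℕ := B m * (2 * 4 ^ j + 2 ^ j * ρ ^ m) / j + 1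

/-- the bound for the number of the chosen cells near a line -/
def thr (m j ρ : ℕ) : ℕ :=
  if ρ ≤ 2 ^ (4 ^ j) then thrS m j ρ else B m * (2 * 4 ^ j + ρ ^ m) + 1

/-- the base of the exponential moments -/
noncomputable def bas (j ρ : ℕ) : ℝ := if ρ ≤ 2 ^ (4 ^ j) then 2 ^ j else 2

omit [Sq] in
lemma one_le_bas (j ρ : ℕ) : 1 ≤ bas j ρ := by
  unfold bas
  split_ifs
  · exact one_le_pow₀ (by norm_num)
  · norm_num

omit [Sq] in
lemma cond (m j L ρ i M : ℕ) (hL : L = 2 * 4 ^ j) (_hi : 1 ≤ i)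
    (hM : B m * (L + 2 ^ i * ρ ^ m) < i * M) :
    (((2 ^ L : ℕ) : ℝ)) ^ (2 * (m + 1) + 1) *
      Real.exp (((2 : ℝ) ^ i - 1) * (3 * 11 ^ (m + 1) * (ρ : ℝ) ^ m)) < ((2 : ℝ) ^ i) ^ M := by
  have h1 : Real.exp (((2 : ℝ) ^ i - 1) * (3 * 11 ^ (m + 1) * (ρ : ℝ) ^ m))
      ≤ 2 ^ (6 * 11 ^ (m + 1) * (2 ^ i * ρ ^ m)) := by
    have he : Real.exp 1 ≤ 4 := by
      have := Real.exp_one_lt_d9
      linarith
    have h0 : ((2 : ℝ) ^ i - 1) * (3 * 11 ^ (m + 1) * (ρ : ℝ) ^ m)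
        ≤ ((3 * 11 ^ (m + 1) * (2 ^ i * ρ ^ m) : ℕ) : ℝ) := by
      push_cast
      have h00 : (0 : ℝ) ≤ 3 * 11 ^ (m + 1) * (ρ : ℝ) ^ m := by positivity
      nlinarith
    refine (Real.exp_le_exp.2 h0).trans ?_
    have h2 : Real.exp ((3 * 11 ^ (m + 1) * (2 ^ i * ρ ^ m) : ℕ) : ℝ)
        = Real.exp 1 ^ (3 * 11 ^ (m + 1) * (2 ^ i * ρ ^ m)) := by
      rw [← Real.exp_nat_mul, mul_one]
    rw [h2]
    have h3 : (2 : ℝ) ^ (6 * 11 ^ (m + 1) * (2 ^ i * ρ ^ m))
        = 4 ^ (3 * 11 ^ (m + 1) * (2 ^ i * ρ ^ m)) := by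
      rw [show (4 : ℝ) = 2 ^ 2 by norm_num, ← pow_mul]
      congr 1
      ring
    rw [h3]
    exact pow_le_pow_left₀ (Real.exp_pos 1).le he _
  calc (((2 ^ L : ℕ) : ℝ)) ^ (2 * (m + 1) + 1) *
        Real.exp (((2 : ℝ) ^ i - 1) * (3 * 11 ^ (m + 1) * (ρ : ℝ) ^ m))
      ≤ (((2 ^ L : ℕ) : ℝ)) ^ (2 * (m + 1) + 1) * 2 ^ (6 * 11 ^ (m + 1) * (2 ^ i * ρ ^ m)) :=
        mul_le_mul_of_nonneg_left h1 (by positivity)
    _ = 2 ^ (L * (2 * (m + 1) + 1) + 6 * 11 ^ (m + 1) * (2 ^ i * ρ ^ m)) := by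
        push_cast
        rw [← pow_mul, ← pow_add]
    _ < 2 ^ (i * M) := by
        apply pow_lt_pow_right₀ (by norm_num)
        refine lt_of_le_of_lt ?_ hM
        unfold B
        have e1 : L * (2 * (m + 1) + 1) ≤ (2 * m + 3) * (L + 2 ^ i * ρ ^ m) := by
          calc L * (2 * (m + 1) + 1) = (2 * m + 3) * L := by ring
            _ ≤ (2 * m + 3) * (L + 2 ^ i * ρ ^ m) := Nat.mul_le_mul_left _ (by omega)
        have e2 : 6 * 11 ^ (m + 1) * (2 ^ i * ρ ^ m)
            ≤ 6 * 11 ^ (m + 1) * (L + 2 ^ i * ρ ^ m) := Nat.mul_le_mul_left _ (by omega)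
        have e3 : ((2 * m + 3) + 6 * 11 ^ (m + 1)) * (L + 2 ^ i * ρ ^ m)
            = (2 * m + 3) * (L + 2 ^ i * ρ ^ m) + 6 * 11 ^ (m + 1) * (L + 2 ^ i * ρ ^ m) := by
          ring
        omega
    _ = ((2 : ℝ) ^ i) ^ M := by rw [pow_mul]

open Classical in
lemma exists_sig (m n : ℕ) : ∃ σ : (Fin m → Fin (2 ^ (ex n))) → Fin (2 ^ (ex n)),
    ∀ ρ : ℕ, 1 ≤ ρ → ρ ≤ 2 ^ (ex n) → ∀ a b,
    (univ.filter fun x => Near m (2 ^ (ex n)) ρ a b (x, σ x)).card < 2 * thr m (jj n) ρ := by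
  refine exists_pattern m (2 ^ (ex n)) (fun ρ => 2 * thr m (jj n) ρ) (bas (jj n))
    (one_le_bas (jj n)) (by positivity) (fun ρ hρ _ => ?_)
  have hj := jj_pos n
  unfold bas thr
  split_ifs with hc
  · refine cond m (jj n) (ex n) ρ (jj n) _ rfl hj ?_
    unfold thrS ex
    have h1 := Nat.lt_mul_div_succ (B m * (2 * 4 ^ jj n + 2 ^ jj n * ρ ^ m)) hj
    calc B m * (2 * 4 ^ jj n + 2 ^ jj n * ρ ^ m)
        < jj n * (B m * (2 * 4 ^ jj n + 2 ^ jj n * ρ ^ m) / jj n + 1) := h1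
      _ ≤ jj n * (2 * (B m * (2 * 4 ^ jj n + 2 ^ jj n * ρ ^ m) / jj n + 1)) :=
        Nat.mul_le_mul_left _ (by omega)
  · have := cond m (jj n) (ex n) ρ 1 (2 * (B m * (2 * 4 ^ jj n + ρ ^ m) + 1)) rfl le_rfl (by
      unfold ex
      have : B m * (2 * 4 ^ jj n + 2 ^ 1 * ρ ^ m) ≤ 2 * (B m * (2 * 4 ^ jj n + ρ ^ m)) := by
        calc B m * (2 * 4 ^ jj n + 2 ^ 1 * ρ ^ m) ≤ B m * (2 * (2 * 4 ^ jj n + ρ ^ m)) :=
              Nat.mul_le_mul_left _ (by omega)
          _ = 2 * (B m * (2 * 4 ^ jj n + ρ ^ m)) := by ring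
      omega)
    rw [pow_one] at this
    exact this

/-- the chosen patterns -/
noncomputable def sig (m n : ℕ) : (Fin m → Fin (2 ^ (ex n))) → Fin (2 ^ (ex n)) :=
  (exists_sig m n).choose

/-- last digits of a multi-index -/
def digits (m n : ℕ) (k : Fin m → ℕ) : Fin m → Fin (2 ^ (ex n)) :=
  fun j => ⟨k j % 2 ^ (ex n), Nat.mod_lt _ (by positivity)⟩

/-- parent of a multi-index -/
def parent (m n : ℕ) (k : Fin m → ℕ) : Fin m → ℕ := fun j => k j / 2 ^ (ex n)

/-- the height of the cell of level `n` over the column `k` -/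
noncomputable def H (m : ℕ) : ℕ → (Fin m → ℕ) → ℕ
  | 0, _ => 0
  | n + 1, k => H m n (parent m n k) * 2 ^ (ex n) + (sig m n (digits m n k) : ℕ)

abbrev E (m : ℕ) := EuclideanSpace ℝ (Fin (m + 1))

/-- closed cells -/
def Cell (m n : ℕ) (k : Fin m → ℕ) : Set (E m) :=
  {z | (∀ j : Fin m, (k j : ℝ) ≤ z (Fin.castSucc j) * R n ∧ z (Fin.castSucc j) * R n ≤ k j + 1) ∧
    ((H m n k : ℕ) : ℝ) ≤ z (Fin.last m) * R n ∧ z (Fin.last m) * R n ≤ (H m n k : ℕ) + 1}

/-- the finite index box -/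
def Box (m n : ℕ) : Finset (Fin m → ℕ) := Fintype.piFinset fun _ => Finset.range (R n)

/-- the set -/
def K (m : ℕ) : Set (E m) := ⋂ n, ⋃ k ∈ Box m n, Cell m n k

omit [Sq] in
lemma aux_parent {x : ℝ} {k q r : ℕ} (hq : 0 < q) (h1 : (k : ℝ) ≤ x * ((r * q : ℕ) : ℝ))
    (h2 : x * ((r * q : ℕ) : ℝ) ≤ k + 1) :
    ((k / q : ℕ) : ℝ) ≤ x * r ∧ x * r ≤ ((k / q : ℕ) : ℝ) + 1 := by
  have hq' : (0 : ℝ) < q := by exact_mod_cast hq
  have h3 : (k : ℝ) = (q : ℝ) * ((k / q : ℕ) : ℝ) + ((k % q : ℕ) : ℝ) := by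
    exact_mod_cast (Nat.div_add_mod k q).symm
  have h4 : ((k % q : ℕ) : ℝ) + 1 ≤ q := by
    exact_mod_cast Nat.mod_lt k hq
  have h5 : (0 : ℝ) ≤ ((k % q : ℕ) : ℝ) := Nat.cast_nonneg _
  push_cast at h1 h2
  constructor
  · have : (q : ℝ) * ((k / q : ℕ) : ℝ) ≤ (q : ℝ) * (x * r) := by nlinarith
    exact le_of_mul_le_mul_left this hq'
  · have : (q : ℝ) * (x * r) ≤ (q : ℝ) * (((k / q : ℕ) : ℝ) + 1) := by nlinarith
    exact le_of_mul_le_mul_left this hq'

lemma cell_subset_parent (m n : ℕ) (k : Fin m → ℕ) :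
    Cell m (n + 1) k ⊆ Cell m n (parent m n k) := by
  intro z hz
  obtain ⟨h1, h2, h3⟩ := hz
  refine ⟨fun j => ?_, ?_⟩
  · exact aux_parent (by positivity) (h1 j).1 (h1 j).2
  · have h4 := aux_parent (q := 2 ^ (ex n)) (by positivity) h2 h3
    have h5 : H m (n + 1) k / 2 ^ (ex n) = H m n (parent m n k) := by
      simp only [H]
      rw [mul_comm, Nat.mul_add_div (by positivity), Nat.div_eq_of_lt (Fin.isLt _), add_zero]
    rw [h5] at h4
    exact h4

open Classical in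
/-- indices of the cells of level `n` hit by `T` -/
noncomputable def hit (m n : ℕ) (T : Set (E m)) : Finset (Fin m → ℕ) :=
  (Box m n).filter fun k => (Cell m n k ∩ T).Nonempty

lemma parent_mem_hit {m n : ℕ} {T : Set (E m)} {k : Fin m → ℕ} (hk : k ∈ hit m (n + 1) T) :
    parent m n k ∈ hit m n T := by
  classical
  obtain ⟨h1, z, hz, hzT⟩ := Finset.mem_filter.mp hk
  refine Finset.mem_filter.mpr ⟨?_, z, cell_subset_parent m n k hz, hzT⟩
  simp only [Box, Fintype.mem_piFinset, Finset.mem_range] at h1 ⊢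
  intro j
  have := h1 j
  rw [R_succ] at this
  exact Nat.div_lt_of_lt_mul (by rw [mul_comm]; exact this)

lemma ext_of_parent_digits {m n : ℕ} {k k' : Fin m → ℕ} (h1 : parent m n k = parent m n k')
    (h2 : digits m n k = digits m n k') : k = k' := by
  funext j
  have e1 := congrFun h1 j
  have e2 := congrArg Fin.val (congrFun h2 j)
  simp only [parent, digits] at e1 e2
  rw [← Nat.div_add_mod (k j) (2 ^ (ex n)), e1, e2, Nat.div_add_mod]

open Classical in
lemma card_fiber_le (m n : ℕ) (T : Set (E m)) (k0 : Fin m → ℕ) :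
    ((hit m (n + 1) T).filter fun k => parent m n k = k0).card ≤ (2 ^ (ex n)) ^ m := by
  calc ((hit m (n + 1) T).filter fun k => parent m n k = k0).card
      ≤ (univ : Finset (Fin m → Fin (2 ^ (ex n)))).card := by
        apply Finset.card_le_card_of_injOn (digits m n)
        · intro k _; exact Finset.mem_coe.mpr (Finset.mem_univ _)
        · intro k hk k' hk' h
          have h1 := (Finset.mem_filter.mp (Finset.mem_coe.mp hk)).2
          have h2 := (Finset.mem_filter.mp (Finset.mem_coe.mp hk')).2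
          exact ext_of_parent_digits (h1.trans h2.symm) h
    _ = (2 ^ (ex n)) ^ m := by simp

lemma card_hit_succ_le (m n : ℕ) (T : Set (E m)) :
    (hit m (n + 1) T).card ≤ (2 ^ (ex n)) ^ m * (hit m n T).card := by
  classical
  exact Finset.card_le_mul_card_image_of_maps_to (fun k hk => parent_mem_hit hk) _
    (fun k0 _ => card_fiber_le m n T k0)

lemma card_hit_mono (m : ℕ) (T : Set (E m)) {n n' : ℕ} (h : n ≤ n') :
    (hit m n' T).card * (R n) ^ m ≤ (hit m n T).card * (R n') ^ m := by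
  induction n', h using Nat.le_induction with
  | base => exact le_refl _
  | succ k _ ih =>
    calc (hit m (k + 1) T).card * (R n) ^ m
        ≤ ((2 ^ (ex k)) ^ m * (hit m k T).card) * (R n) ^ m :=
          Nat.mul_le_mul_right _ (card_hit_succ_le m k T)
      _ = (2 ^ (ex k)) ^ m * ((hit m k T).card * (R n) ^ m) := by ring
      _ ≤ (2 ^ (ex k)) ^ m * ((hit m n T).card * (R k) ^ m) := Nat.mul_le_mul_left _ ih
      _ = (hit m n T).card * (R (k + 1)) ^ m := by rw [R_succ, mul_pow]; ring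

omit [Sq] in
lemma abs_coord_le {m : ℕ} (x y : E m) (i : Fin (m + 1)) : |x i - y i| ≤ dist x y := by
  have h : ‖(x - y) i‖ ≤ ‖x - y‖ := PiLp.norm_apply_le (x - y) i
  rw [dist_eq_norm]
  simpa using h

/-- the `r`-neighbourhood of the line through `p` with direction `v` -/
def Nbhd {m : ℕ} (p v : E m) (r : ℝ) : Set (E m) := {z | ∃ t : ℝ, dist z (p + t • v) ≤ r}

open Classical in
lemma card_fiber_thin_le (m n : ℕ) (p v : E m) (r : ℝ) (ρ : ℕ) (hρ1 : 1 ≤ ρ)
    (hρ2 : ρ ≤ 2 ^ (ex n)) (hr : r * R (n + 1) ≤ ρ) (k0 : Fin m → ℕ) :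
    ((hit m (n + 1) (Nbhd p v r)).filter fun k => parent m n k = k0).card
      ≤ 2 * thr m (jj n) ρ := by
  set S := (hit m (n + 1) (Nbhd p v r)).filter fun k => parent m n k = k0 with hS
  set X : Finset (Fin m → Fin (2 ^ (ex n))) := S.image (digits m n) with hX
  have hcard : S.card = X.card := by
    rw [hX, Finset.card_image_of_injOn]
    intro k hk k' hk' h
    have h1 := (Finset.mem_filter.mp (Finset.mem_coe.mp hk)).2
    have h2 := (Finset.mem_filter.mp (Finset.mem_coe.mp hk')).2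
    exact ext_of_parent_digits (h1.trans h2.symm) h
  rw [hcard]
  have hRpos := R_pos' (n + 1)
  -- choose parameters
  have hch : ∀ x : Fin m → Fin (2 ^ (ex n)), ∃ t : ℝ, x ∈ X →
      (∀ j : Fin m, |((x j : ℕ) : ℝ) - ((p (Fin.castSucc j) * R (n + 1) -
        ((k0 j * 2 ^ (ex n) : ℕ) : ℝ)) + t * (v (Fin.castSucc j) * R (n + 1)))| ≤ 2 * ρ) ∧
      |((sig m n x : ℕ) : ℝ) - ((p (Fin.last m) * R (n + 1) -
        ((H m n k0 * 2 ^ (ex n) : ℕ) : ℝ)) + t * (v (Fin.last m) * R (n + 1)))| ≤ 2 * ρ := by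
    intro x
    by_cases hx : x ∈ X
    · rw [hX, Finset.mem_image] at hx
      obtain ⟨k, hk, hkx⟩ := hx
      obtain ⟨hk1, hk2⟩ := Finset.mem_filter.mp hk
      obtain ⟨_, z, hz, t, ht⟩ := Finset.mem_filter.mp hk1
      refine ⟨t, fun _ => ?_⟩
      have key : ∀ (i : Fin (m + 1)) (y o : ℝ), y + o ≤ z i * R (n + 1) →
          z i * R (n + 1) ≤ y + o + 1 →
          |y - ((p i * R (n + 1) - o) + t * (v i * R (n + 1)))| ≤ 2 * ρ := by
        intro i y o h1 h2
        have h3 := (abs_coord_le z (p + t • v) i).trans ht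
        have hρR : (1 : ℝ) ≤ ρ := by exact_mod_cast hρ1
        have h4 : |z i - (p i + t * v i)| * R (n + 1) ≤ ρ := by
          have h5 : |z i - (p i + t * v i)| ≤ r := by simpa using h3
          exact (mul_le_mul_of_nonneg_right h5 hRpos.le).trans hr
        have h6 : |(z i - (p i + t * v i)) * R (n + 1)| ≤ ρ := by
          rw [abs_mul, abs_of_pos hRpos]; exact h4
        rw [abs_le] at h6 ⊢
        constructor <;> nlinarith
      obtain ⟨hz1, hz2, hz3⟩ := hz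
      constructor
      · intro j
        have e1 : (k j : ℝ) = ((x j : ℕ) : ℝ) + ((k0 j * 2 ^ (ex n) : ℕ) : ℝ) := by
          rw [← hkx, ← hk2]
          simp only [digits, parent]
          norm_cast
          have := Nat.div_add_mod (k j) (2 ^ (ex n))
          linarith [mul_comm (k j / 2 ^ (ex n)) (2 ^ (ex n))]
        have h1 := (hz1 j).1
        have h2 := (hz1 j).2
        rw [e1] at h1 h2
        exact key _ _ _ h1 h2
      · have e1 : ((H m (n + 1) k : ℕ) : ℝ)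
            = ((sig m n x : ℕ) : ℝ) + ((H m n k0 * 2 ^ (ex n) : ℕ) : ℝ) := by
          rw [← hkx, ← hk2]
          simp only [H]
          push_cast
          ring
        rw [e1] at hz2 hz3
        exact key _ _ _ hz2 hz3
    · exact ⟨0, fun h => absurd h hx⟩
  choose t ht using hch
  exact card_le_of_line ((exists_sig m n).choose_spec ρ hρ1 hρ2) X
    (fun j => p (Fin.castSucc j) * R (n + 1) - ((k0 j * 2 ^ (ex n) : ℕ) : ℝ))
    (fun j => v (Fin.castSucc j) * R (n + 1))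
    (p (Fin.last m) * R (n + 1) - ((H m n k0 * 2 ^ (ex n) : ℕ) : ℝ))
    (v (Fin.last m) * R (n + 1)) t (fun x hx => ht x hx)

/-- the bound for the number of the cells of level `n` hit by a thin tube -/
def PP (m n : ℕ) : ℕ := ∏ k ∈ range n, (2 * thr m (jj k) 1)

lemma PP_succ (m n : ℕ) : PP m (n + 1) = PP m n * (2 * thr m (jj n) 1) := by
  unfold PP
  rw [Finset.prod_range_succ]

lemma card_hit_thin_le (m n : ℕ) (p v : E m) (r : ℝ) (hr0 : 0 ≤ r) (hr : r * R n ≤ 1) :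
    (hit m n (Nbhd p v r)).card ≤ PP m n := by
  classical
  induction n with
  | zero =>
    have h1 : (hit m 0 (Nbhd p v r)).card ≤ (Box m 0).card := Finset.card_filter_le _ _
    have h2 : (Box m 0).card = 1 := by simp [Box, R]
    have h3 : PP m 0 = 1 := by simp [PP]
    rw [h3]
    rwa [h2] at h1
  | succ n ih =>
    have hr' : r * R n ≤ 1 := by
      refine le_trans ?_ hr
      apply mul_le_mul_of_nonneg_left _ hr0
      exact_mod_cast R_mono (Nat.le_succ n)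
    have h1 : (hit m (n + 1) (Nbhd p v r)).card
        ≤ (2 * thr m (jj n) 1) * (hit m n (Nbhd p v r)).card :=
      Finset.card_le_mul_card_image_of_maps_to (fun k hk => parent_mem_hit hk) _
        (fun k0 _ => card_fiber_thin_le m n p v r 1 le_rfl (Nat.one_le_two_pow)
          (by rw [Nat.cast_one]; exact hr) k0)
    calc (hit m (n + 1) (Nbhd p v r)).card
        ≤ (2 * thr m (jj n) 1) * (hit m n (Nbhd p v r)).card := h1
      _ ≤ (2 * thr m (jj n) 1) * PP m n := Nat.mul_le_mul_left _ (ih hr')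
      _ = PP m (n + 1) := by rw [PP_succ]; ring

lemma card_hit_wide_le (m n : ℕ) (p v : E m) (r : ℝ) (hr0 : 0 ≤ r) (hr : r * R n ≤ 1)
    (ρ : ℕ) (hρ1 : 1 ≤ ρ) (hρ2 : ρ ≤ 2 ^ (ex n)) (hρ : r * R (n + 1) ≤ ρ) :
    (hit m (n + 1) (Nbhd p v r)).card ≤ (2 * thr m (jj n) ρ) * PP m n := by
  classical
  have h1 : (hit m (n + 1) (Nbhd p v r)).card
      ≤ (2 * thr m (jj n) ρ) * (hit m n (Nbhd p v r)).card :=
    Finset.card_le_mul_card_image_of_maps_to (fun k hk => parent_mem_hit hk) _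
      (fun k0 _ => card_fiber_thin_le m n p v r ρ hρ1 hρ2 hρ k0)
  exact h1.trans (Nat.mul_le_mul_left _ (card_hit_thin_le m n p v r hr0 hr))

end Pool.Agent.K9h65.TU
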