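import Mathlib
import Pool.Agent.K9h65.TU.Meas

/-!
Numerical part: the choice of the sizes of the grids.
-/

namespace Pool.Agent.K9h65.TU

open MeasureTheory Filter Topology

/-- the function `x / log (1 + x)` is increasing -/
lemma mono_quot {a b : ℝ} (ha : 0 < a) (hab : a ≤ b) :
    a / Real.log (1 + a) ≤ b / Real.log (1 + b) := by
  have hb : 0 < b := ha.trans_le hab
  have h1 : 0 < Real.log (1 + a) := Real.log_pos (by linarith)
  have h2 : 0 < Real.log (1 + b) := Real.log_pos (by linarith)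
  rw [div_le_div_iff₀ h1 h2]
  have h3 : 1 + b / a * a ≤ (1 + a) ^ (b / a) :=
    one_add_mul_self_le_rpow_one_add (by linarith) (by rw [le_div_iff₀ ha]; linarith)
  rw [div_mul_cancel₀ b ha.ne'] at h3
  have h4 := Real.log_le_log (by linarith) h3
  rw [Real.log_rpow (by linarith)] at h4
  have h5 := mul_le_mul_of_nonneg_left h4 ha.le
  have h6 : a * (b / a * Real.log (1 + a)) = b * Real.log (1 + a) := by
    field_simp
  linarith

lemma quot_ge_one {a : ℝ} (ha : 0 < a) : 1 ≤ a / Real.log (1 + a) := by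
  have h1 : 0 < Real.log (1 + a) := Real.log_pos (by linarith)
  rw [one_le_div h1]
  have := Real.log_le_sub_one_of_pos (show 0 < 1 + a by linarith)
  linarith

lemma quot_le {a : ℝ} (ha : 0 < a) : a / Real.log (1 + a) ≤ 1 + a := by
  have h1 : 0 < Real.log (1 + a) := Real.log_pos (by linarith)
  rw [div_le_iff₀ h1]
  have := Real.one_sub_inv_le_log_of_pos (show 0 < 1 + a by linarith)
  have h2 : (1 + a) * (1 - (1 + a)⁻¹) = a := by
    field_simp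
    ring
  nlinarith

lemma quot_pow (j : ℕ) (hj : 1 ≤ j) {x : ℝ} (hx : (4 : ℝ) ^ j * Real.log 2 ≤ x) :
    (4 : ℝ) ^ j / j ≤ 4 * (x / Real.log (1 + x)) := by
  have hl : 0 < Real.log 2 := Real.log_pos (by norm_num)
  have hl1 : Real.log 2 < 1 := by
    have := Real.log_two_lt_d9
    linarith
  have h4 : (0 : ℝ) < 4 ^ j := by positivity
  have h4' : (1 : ℝ) ≤ 4 ^ j := one_le_pow₀ (by norm_num)
  have hj' : (1 : ℝ) ≤ j := by exact_mod_cast hj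
  have ha : 0 < (4 : ℝ) ^ j * Real.log 2 := by positivity
  refine le_trans ?_ (mul_le_mul_of_nonneg_left (mono_quot ha hx) (by norm_num))
  have h1 : 0 < Real.log (1 + (4 : ℝ) ^ j * Real.log 2) := Real.log_pos (by linarith)
  have h2 : Real.log (1 + (4 : ℝ) ^ j * Real.log 2) ≤ 4 * j * Real.log 2 := by
    have h3 : 1 + (4 : ℝ) ^ j * Real.log 2 ≤ 2 ^ (4 * j) := by
      have e1 : (2 : ℝ) ^ (4 * j) = 4 ^ j * 4 ^ j := by
        rw [← mul_pow, pow_mul]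
        norm_num
      have e2 : (2 : ℝ) ≤ 4 ^ j := by
        calc (2 : ℝ) ≤ 4 ^ 1 := by norm_num
          _ ≤ 4 ^ j := pow_le_pow_right₀ (by norm_num) hj
      rw [e1]
      nlinarith
    calc Real.log (1 + (4 : ℝ) ^ j * Real.log 2) ≤ Real.log (2 ^ (4 * j)) :=
          Real.log_le_log (by linarith) h3
      _ = 4 * j * Real.log 2 := by
          rw [Real.log_pow]
          push_cast
          ring
  rw [← mul_div_assoc, div_le_div_iff₀ (by linarith) h1]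
  calc (4 : ℝ) ^ j * Real.log (1 + (4 : ℝ) ^ j * Real.log 2)
      ≤ (4 : ℝ) ^ j * (4 * j * Real.log 2) := mul_le_mul_of_nonneg_left h2 h4.le
    _ = 4 * ((4 : ℝ) ^ j * Real.log 2) * j := by ring

/-- bound for thin tubes -/
lemma thr_one_le (m j : ℕ) (hj : 1 ≤ j) :
    ((2 * thr m j 1 : ℕ) : ℝ) ≤ (8 * B m) * ((4 : ℝ) ^ j / j) := by
  have hj' : (0 : ℝ) < j := by exact_mod_cast hj
  have hB : (1 : ℝ) ≤ B m := by exact_mod_cast B_pos m
  have h1 : thr m j 1 = thrS m j 1 := by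
    unfold thr
    rw [if_pos Nat.one_le_two_pow]
  have h2 : ((thrS m j 1 : ℕ) : ℝ) ≤ (B m * (2 * 4 ^ j + 2 ^ j)) / j + 1 := by
    unfold thrS
    rw [one_pow, mul_one]
    push_cast
    have := @Nat.cast_div_le ℝ _ _ _ (B m * (2 * 4 ^ j + 2 ^ j)) j
    push_cast at this
    linarith
  have h3 : (2 : ℝ) ^ j ≤ 4 ^ j := pow_le_pow_left₀ (by norm_num) (by norm_num) j
  have h4 : (j : ℝ) ≤ 4 ^ j := by
    have : j < 4 ^ j := Nat.lt_pow_self (by norm_num)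
    exact_mod_cast this.le
  rw [h1]
  push_cast
  have h5 : (B m * (2 * 4 ^ j + 2 ^ j)) / (j : ℝ) + 1 ≤ (4 * B m) * ((4 : ℝ) ^ j / j) := by
    rw [← mul_div_assoc, div_add_one hj'.ne']
    apply div_le_div_of_nonneg_right _ hj'.le
    have h6 : (j : ℝ) ≤ B m * 4 ^ j := by nlinarith [pow_pos (show (0 : ℝ) < 4 by norm_num) j]
    nlinarith [pow_pos (show (0 : ℝ) < 4 by norm_num) j]
  linarith

/-- bound for all tubes which are not wide -/
lemma thr_small_le (m j ρ : ℕ) (hj : 1 ≤ j) (hρ : 1 ≤ ρ) (hc : ρ ≤ 2 ^ (4 ^ j)) :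
    ((2 * thr m j ρ : ℕ) : ℝ) ≤ (8 * B m) * ((4 : ℝ) ^ j / j) * (ρ : ℝ) ^ m := by
  have hj' : (0 : ℝ) < j := by exact_mod_cast hj
  have hB : (1 : ℝ) ≤ B m := by exact_mod_cast B_pos m
  have hρ' : (1 : ℝ) ≤ (ρ : ℝ) ^ m := one_le_pow₀ (by exact_mod_cast hρ)
  have h1 : thr m j ρ = thrS m j ρ := by
    unfold thr
    rw [if_pos hc]
  have h2 : ((thrS m j ρ : ℕ) : ℝ) ≤ (B m * (2 * 4 ^ j + 2 ^ j * (ρ : ℝ) ^ m)) / j + 1 := by
    unfold thrS
    push_cast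
    have := @Nat.cast_div_le ℝ _ _ _ (B m * (2 * 4 ^ j + 2 ^ j * ρ ^ m)) j
    push_cast at this
    linarith
  have h3 : (2 : ℝ) ^ j ≤ 4 ^ j := pow_le_pow_left₀ (by norm_num) (by norm_num) j
  have h4 : (j : ℝ) ≤ 4 ^ j := by
    have : j < 4 ^ j := Nat.lt_pow_self (by norm_num)
    exact_mod_cast this.le
  rw [h1]
  push_cast
  have h40 : (0 : ℝ) < 4 ^ j := by positivity
  have h5 : (B m * (2 * 4 ^ j + 2 ^ j * (ρ : ℝ) ^ m)) / (j : ℝ) + 1
      ≤ (4 * B m) * ((4 : ℝ) ^ j / j) * (ρ : ℝ) ^ m := by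
    rw [← mul_div_assoc, div_mul_eq_mul_div, div_add_one hj'.ne']
    apply div_le_div_of_nonneg_right _ hj'.le
    have e1 : (2 : ℝ) ^ j * (ρ : ℝ) ^ m ≤ 4 ^ j * (ρ : ℝ) ^ m :=
      mul_le_mul_of_nonneg_right h3 (by positivity)
    have e2 : (4 : ℝ) ^ j ≤ 4 ^ j * (ρ : ℝ) ^ m := le_mul_of_one_le_right h40.le hρ'
    have e3 : (j : ℝ) ≤ B m * (4 ^ j * (ρ : ℝ) ^ m) := by
      calc (j : ℝ) ≤ 4 ^ j := h4
        _ ≤ 4 ^ j * (ρ : ℝ) ^ m := e2
        _ ≤ B m * (4 ^ j * (ρ : ℝ) ^ m) := le_mul_of_one_le_left (by positivity) hB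
    have e4 : (B m : ℝ) * (2 * 4 ^ j + 2 ^ j * (ρ : ℝ) ^ m)
        ≤ B m * (3 * (4 ^ j * (ρ : ℝ) ^ m)) := by
      apply mul_le_mul_of_nonneg_left _ (by linarith)
      linarith
    calc (B m : ℝ) * (2 * 4 ^ j + 2 ^ j * (ρ : ℝ) ^ m) + j
        ≤ B m * (3 * (4 ^ j * (ρ : ℝ) ^ m)) + B m * (4 ^ j * (ρ : ℝ) ^ m) := add_le_add e4 e3
      _ = 4 * B m * 4 ^ j * (ρ : ℝ) ^ m := by ring
  linarith

/-- bound for wide tubes -/
lemma thr_large_le (m j ρ : ℕ) (hm : 1 ≤ m) (hρ : 1 ≤ ρ) (hc : ¬ ρ ≤ 2 ^ (4 ^ j)) :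
    ((2 * thr m j ρ : ℕ) : ℝ) ≤ (8 * B m) * (ρ : ℝ) ^ m := by
  have hB : 1 ≤ B m := B_pos m
  have h0 : 1 ≤ ρ ^ m := Nat.one_le_pow _ _ hρ
  have h1 : 4 ^ j ≤ ρ ^ m := by
    have h2 : 4 ^ j < 2 ^ (4 ^ j) := Nat.lt_two_pow_self
    have h3 : ρ ^ 1 ≤ ρ ^ m := Nat.pow_le_pow_right hρ hm
    rw [pow_one] at h3
    omega
  have h4 : 2 * thr m j ρ ≤ 8 * B m * ρ ^ m := by
    unfold thr
    rw [if_neg hc]
    nlinarith [Nat.mul_le_mul hB h0, Nat.mul_le_mul_left (B m) h1]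
  exact_mod_cast h4

end Pool.Agent.K9h65.TU
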