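import Mathlib
import Pool.Agent.K9h65.TU.Num

/-!
The main bound: `H^m (K ∩ T) ≤ C w^m (log (1/w) / log (1 + log (1/w))) φ (1/w)`.
-/

namespace Pool.Agent.K9h65.TU

open MeasureTheory Filter Topology

/-- the bounds for the numbers of cells hit by thin tubes, when `g P` is the next size for the
bound `P` -/
def st (m : ℕ) (g : ℕ → ℕ) : ℕ → ℕ
  | 0 => 1
  | n + 1 => st m g n * (2 * thr m (g (st m g n)) 1)

/-- the sequence of the sizes of the grids -/
@[instance_reducible]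
def mkSq (m : ℕ) (g : ℕ → ℕ) (hg : ∀ P, 1 ≤ g P) : Sq where
  j n := g (st m g n)
  pos _ := hg _

lemma PP_mk (m : ℕ) (g : ℕ → ℕ) (hg : ∀ P, 1 ≤ g P) (n : ℕ) :
    @PP (mkSq m g hg) m n = st m g n := by
  let _ := mkSq m g hg
  induction n with
  | zero => simp [PP, st]
  | succ n ih =>
    rw [PP_succ, ih]
    rfl

/-- `x / log (1 + x)` at `x = log (1 / w)` -/
noncomputable def QQ (w : ℝ) : ℝ := Real.log (1 / w) / Real.log (1 + Real.log (1 / w))

lemma log_pos_of {w : ℝ} (hw0 : 0 < w) (hw : w ≤ 1 / 2) : 0 < Real.log (1 / w) := by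
  apply Real.log_pos
  rw [lt_div_iff₀ hw0]
  linarith

lemma exists_level [Sq] {w : ℝ} (hw0 : 0 < w) (hw1 : w ≤ 1) :
    ∃ n, w * R n ≤ 1 ∧ 1 < w * R (n + 1) := by
  classical
  have hex : ∃ n, 1 < w * R n := by
    have := tendsto_R.const_mul_atTop hw0
    exact (this.eventually_gt_atTop 1).exists
  have hspec := Nat.find_spec hex
  have hmin := fun k (hk : k < Nat.find hex) => Nat.find_min hex hk
  rcases hn : Nat.find hex with _ | n
  · rw [hn] at hspec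
    simp [R] at hspec
    linarith
  · rw [hn] at hspec hmin
    exact ⟨n, not_lt.mp (hmin n (Nat.lt_succ_self n)), hspec⟩

theorem main_bound (m : ℕ) (hm : 1 ≤ m) (φ : ℝ → ℝ) (hφ1 : ∀ x, 1 ≤ φ x)
    (hφ : Tendsto φ atTop atTop) : ∃ (S : Sq) (C : ℝ), 0 < C ∧ ∀ (p v : E m) (w : ℝ), 0 < w →
      w ≤ 1 / 2 → μH[(m : ℝ)] (@K S m ∩ Nbhd p v w) ≤
        ENNReal.ofReal (C * (w ^ m * QQ w * φ (1 / w))) := by
  have hg0 : ∀ P : ℕ, ∃ j : ℕ, 1 ≤ j ∧ ∀ x : ℝ, (2 : ℝ) ^ (4 ^ j) ≤ x → (P : ℝ) ≤ φ x := by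
    intro P
    obtain ⟨X, hX⟩ := eventually_atTop.1 (hφ.eventually_ge_atTop (P : ℝ))
    refine ⟨⌈X⌉₊ + 1, by omega, fun x hx => hX x ?_⟩
    have h1 : X ≤ (⌈X⌉₊ : ℝ) := Nat.le_ceil X
    have h2 : ((⌈X⌉₊ + 1 : ℕ) : ℝ) ≤ (4 ^ (⌈X⌉₊ + 1) : ℕ) := by
      exact_mod_cast (Nat.lt_pow_self (by norm_num)).le
    have h3 : ((4 ^ (⌈X⌉₊ + 1) : ℕ) : ℝ) ≤ (2 : ℝ) ^ (4 ^ (⌈X⌉₊ + 1)) := by
      exact_mod_cast (Nat.lt_two_pow_self).le
    push_cast at h2 h3
    linarith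
  choose g hg1 hg2 using hg0
  let S : Sq := mkSq m g hg1
  have hB : (1 : ℝ) ≤ B m := by exact_mod_cast B_pos m
  have hkey : ∀ (k : ℕ) (w : ℝ), 0 < w → (2 : ℝ) ^ (4 ^ (jj k)) * w ≤ 1 →
      ((4 : ℝ) ^ (jj k) / jj k) * (PP m k : ℝ) ≤ 4 * (QQ w * φ (1 / w)) := by
    intro k w hw0 hw
    have hx : (2 : ℝ) ^ (4 ^ (jj k)) ≤ 1 / w := by
      rw [le_div_iff₀ hw0]
      exact hw
    have hl : (4 : ℝ) ^ (jj k) * Real.log 2 ≤ Real.log (1 / w) := by
      have h1 := Real.log_le_log (by positivity) hx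
      rw [Real.log_pow] at h1
      push_cast at h1
      exact h1
    have h1 := quot_pow (jj k) (jj_pos k) hl
    have h2 : (PP m k : ℝ) ≤ φ (1 / w) := by
      rw [PP_mk]
      exact hg2 _ _ hx
    have h3 : (0 : ℝ) ≤ (4 : ℝ) ^ (jj k) / jj k := by positivity
    calc ((4 : ℝ) ^ (jj k) / jj k) * (PP m k : ℝ)
        ≤ (4 * (Real.log (1 / w) / Real.log (1 + Real.log (1 / w)))) * φ (1 / w) :=
          mul_le_mul h1 h2 (Nat.cast_nonneg _) (h3.trans h1)
      _ = 4 * (QQ w * φ (1 / w)) := by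
          unfold QQ
          ring
  refine ⟨S, 256 * B m ^ 2 * (2 * (m + 1)) ^ m, by positivity, fun p v w hw0 hw => ?_⟩
  have hlog := log_pos_of hw0 hw
  have hQ : 1 ≤ QQ w := quot_ge_one hlog
  have hφw := hφ1 (1 / w)
  have hQφ : 1 ≤ QQ w * φ (1 / w) := by nlinarith
  obtain ⟨n, hn1, hn2⟩ := exists_level hw0 (by linarith : w ≤ 1)
  have hR := R_pos' n
  have hR1 := R_pos' (n + 1)
  have hRs : ((R (n + 1) : ℕ) : ℝ) = R n * 2 ^ (ex n) := by
    rw [R_succ]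
    push_cast
    rfl
  set u : ℝ := w * R (n + 1) with hu
  set ρ : ℕ := ⌈u⌉₊ with hρdef
  have hρ1 : 1 ≤ ρ := by
    rw [hρdef, Nat.one_le_ceil_iff]
    linarith
  have hρu : u ≤ ρ := Nat.le_ceil u
  have hρ2u : (ρ : ℝ) ≤ 2 * u := by
    have := Nat.ceil_lt_add_one (show (0 : ℝ) ≤ u by linarith)
    linarith
  have hρN : ρ ≤ 2 ^ (ex n) := by
    rw [hρdef, Nat.ceil_le]
    push_cast
    calc u = (w * R n) * 2 ^ (ex n) := by rw [hu, hRs]; ring
      _ ≤ 1 * 2 ^ (ex n) := mul_le_mul_of_nonneg_right hn1 (by positivity)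
      _ = 2 ^ (ex n) := one_mul _
  have hhit := card_hit_wide_le m n p v w hw0.le hn1 ρ hρ1 hρN hρu
  have hhit' : ((hit m (n + 1) (Nbhd p v w)).card : ℝ)
      ≤ ((2 * thr m (jj n) ρ : ℕ) : ℝ) * (PP m n : ℝ) := by exact_mod_cast hhit
  -- the main estimate
  have hmain : ((2 * thr m (jj n) ρ : ℕ) : ℝ) * (PP m n : ℝ)
      ≤ (256 * B m ^ 2 * (QQ w * φ (1 / w))) * (ρ : ℝ) ^ m := by
    have hρm : (0 : ℝ) ≤ (ρ : ℝ) ^ m := by positivity
    have hex2 : ex n = 4 ^ (jj n) + 4 ^ (jj n) := by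
      unfold ex
      ring
    by_cases hc : ρ ≤ 2 ^ (4 ^ (jj n))
    · have h1 := thr_small_le m (jj n) ρ (jj_pos n) hρ1 hc
      have hw2 : (2 : ℝ) ^ (4 ^ (jj n)) * w ≤ 1 := by
        have h2 : u ≤ 2 ^ (4 ^ (jj n)) := hρu.trans (by exact_mod_cast hc)
        have h3 : (R n * w * 2 ^ (4 ^ (jj n))) * (2 : ℝ) ^ (4 ^ (jj n))
            ≤ 1 * (2 : ℝ) ^ (4 ^ (jj n)) := by
          calc (R n * w * 2 ^ (4 ^ (jj n))) * (2 : ℝ) ^ (4 ^ (jj n)) = u := by
                rw [hu, hRs, hex2, pow_add]; ring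
            _ ≤ _ := by rw [one_mul]; exact h2
        have h4 : R n * w * (2 : ℝ) ^ (4 ^ (jj n)) ≤ 1 :=
          le_of_mul_le_mul_right h3 (by positivity)
        have h5 : (1 : ℝ) ≤ R n := by exact_mod_cast R_pos n
        have h6 : 0 < w * (2 : ℝ) ^ (4 ^ (jj n)) := by positivity
        nlinarith
      have h3 := hkey n w hw0 hw2
      calc ((2 * thr m (jj n) ρ : ℕ) : ℝ) * (PP m n : ℝ)
          ≤ ((8 * B m) * ((4 : ℝ) ^ (jj n) / jj n) * (ρ : ℝ) ^ m) * (PP m n : ℝ) :=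
            mul_le_mul_of_nonneg_right h1 (Nat.cast_nonneg _)
        _ = (8 * B m) * (((4 : ℝ) ^ (jj n) / jj n) * (PP m n : ℝ)) * (ρ : ℝ) ^ m := by ring
        _ ≤ (8 * B m) * (4 * (QQ w * φ (1 / w))) * (ρ : ℝ) ^ m := by
            apply mul_le_mul_of_nonneg_right _ hρm
            exact mul_le_mul_of_nonneg_left h3 (by linarith)
        _ ≤ (256 * B m ^ 2 * (QQ w * φ (1 / w))) * (ρ : ℝ) ^ m := by
            apply mul_le_mul_of_nonneg_right _ hρm
            nlinarith [mul_le_mul_of_nonneg_left hB (by linarith : (0 : ℝ) ≤ B m)]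
    · have h1 := thr_large_le m (jj n) ρ hm hρ1 hc
      have h2 : (PP m n : ℝ) ≤ 32 * B m * (QQ w * φ (1 / w)) := by
        rcases n with _ | k
        · have : PP m 0 = 1 := by simp [PP]
          rw [this, Nat.cast_one]
          nlinarith
        · rw [PP_succ]
          push_cast
          have h3 := thr_one_le m (jj k) (jj_pos k)
          push_cast at h3
          have hw2 : (2 : ℝ) ^ (4 ^ (jj k)) * w ≤ 1 := by
            have h5 : (1 : ℝ) ≤ R k := by exact_mod_cast R_pos k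
            have hRk : ((R (k + 1) : ℕ) : ℝ) = R k * 2 ^ (ex k) := by
              rw [R_succ]
              push_cast
              rfl
            have hex3 : ex k = 4 ^ (jj k) + 4 ^ (jj k) := by
              unfold ex
              ring
            rw [hRk, hex3, pow_add] at hn1
            have h6 : (1 : ℝ) ≤ 2 ^ (4 ^ (jj k)) := one_le_pow₀ (by norm_num)
            have h7 : 0 < w * (2 : ℝ) ^ (4 ^ (jj k)) := by positivity
            have h8 : w * (2 : ℝ) ^ (4 ^ (jj k)) ≤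
                w * (2 : ℝ) ^ (4 ^ (jj k)) * (R k * 2 ^ (4 ^ (jj k))) :=
              le_mul_of_one_le_right h7.le (by nlinarith)
            nlinarith
          have h4 := hkey k w hw0 hw2
          calc (PP m k : ℝ) * (2 * (thr m (jj k) 1 : ℝ))
              ≤ (PP m k : ℝ) * ((8 * B m) * ((4 : ℝ) ^ (jj k) / jj k)) :=
                mul_le_mul_of_nonneg_left h3 (Nat.cast_nonneg _)
            _ = (8 * B m) * (((4 : ℝ) ^ (jj k) / jj k) * (PP m k : ℝ)) := by ring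
            _ ≤ (8 * B m) * (4 * (QQ w * φ (1 / w))) :=
                mul_le_mul_of_nonneg_left h4 (by linarith)
            _ = 32 * B m * (QQ w * φ (1 / w)) := by ring
      calc ((2 * thr m (jj n) ρ : ℕ) : ℝ) * (PP m n : ℝ)
          ≤ ((8 * B m) * (ρ : ℝ) ^ m) * (32 * B m * (QQ w * φ (1 / w))) :=
            mul_le_mul h1 h2 (Nat.cast_nonneg _) (by positivity)
        _ = (256 * B m ^ 2 * (QQ w * φ (1 / w))) * (ρ : ℝ) ^ m := by ring
  refine (measure_le m (n + 1) _).trans (ENNReal.ofReal_le_ofReal ?_)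
  have hρR : ((ρ : ℝ) / R (n + 1)) ^ m ≤ (2 * w) ^ m := by
    apply pow_le_pow_left₀ (by positivity)
    rw [div_le_iff₀ hR1]
    calc (ρ : ℝ) ≤ 2 * u := hρ2u
      _ = 2 * w * R (n + 1) := by rw [hu]; ring
  have hD : (0 : ℝ) < ((m : ℝ) + 1) ^ m := by positivity
  calc ((hit m (n + 1) (Nbhd p v w)).card : ℝ) * (((m : ℝ) + 1) / R (n + 1)) ^ m
      ≤ ((256 * B m ^ 2 * (QQ w * φ (1 / w))) * (ρ : ℝ) ^ m) *
          (((m : ℝ) + 1) / R (n + 1)) ^ m :=
        mul_le_mul_of_nonneg_right (hhit'.trans hmain) (by positivity)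
    _ = (256 * B m ^ 2 * (QQ w * φ (1 / w))) * ((m : ℝ) + 1) ^ m *
          ((ρ : ℝ) / R (n + 1)) ^ m := by
        rw [div_pow, div_pow]
        ring
    _ ≤ (256 * B m ^ 2 * (QQ w * φ (1 / w))) * ((m : ℝ) + 1) ^ m * (2 * w) ^ m :=
        mul_le_mul_of_nonneg_left hρR (by positivity)
    _ = 256 * B m ^ 2 * (2 * (m + 1)) ^ m * (w ^ m * QQ w * φ (1 / w)) := by
        rw [mul_pow, mul_pow]
        ring

end Pool.Agent.K9h65.TU
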